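import Mathlib

namespace Pool.Agent.Results.MP_23b914_co.IPNotExpanding
open Finset Filter Topology


lemma vb (p k : ℕ) (u : Fin p → Fin k → ℝ) (ρ : ℝ) (hρ : 0 ≤ ρ) (hu : ∀ i l, |u i l| ≤ ρ) :
    ∃ w : Fin p → ℤ, (∀ i, w i = -1 ∨ w i = 0 ∨ w i = 1) ∧
      (univ.filter (fun i => w i = 0)).card ≤ k ∧
      ∀ l, |∑ i, (w i : ℝ) * u i l| ≤ k * ρ := by
  classical
  set K : Set (Fin p → ℝ) := {t | (∀ i, t i ∈ Set.Icc (-1 : ℝ) 1) ∧ ∑ i, t i • u i = 0} with hK
  have hKc : IsCompact K := by
    have h1 : IsCompact (Set.pi Set.univ (fun _ : Fin p => Set.Icc (-1 : ℝ) 1)) :=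
      isCompact_univ_pi fun _ => isCompact_Icc
    have h2 : IsClosed {t : Fin p → ℝ | ∑ i, t i • u i = 0} := by
      refine isClosed_eq ?_ continuous_const
      fun_prop
    have h3 : K = Set.pi Set.univ (fun _ : Fin p => Set.Icc (-1 : ℝ) 1) ∩
        {t : Fin p → ℝ | ∑ i, t i • u i = 0} := by
      ext t
      simp only [hK, Set.mem_ofPred_eq, Set.mem_inter_iff, Set.mem_pi, Set.mem_univ, true_imp_iff]
    rw [h3]
    exact h1.inter_right h2
  have hKn : K.Nonempty := ⟨0, by simp [hK]⟩
  obtain ⟨t, ht⟩ := hKc.extremePoints_nonempty hKn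
  rw [mem_extremePoints] at ht
  obtain ⟨htK, hext⟩ := ht
  set Z : Finset (Fin p) := univ.filter (fun i => |t i| < 1) with hZ
  have hZk : Z.card ≤ k := by
    by_contra hcon
    push Not at hcon
    have hni : ¬ LinearIndependent ℝ (fun i : Z => u i.1) := by
      intro hli
      have := hli.fintype_card_le_finrank
      simp at this
      omega
    rw [Fintype.not_linearIndependent_iff] at hni
    obtain ⟨g, hg, i0, hi0⟩ := hni
    -- extend g
    set G : Fin p → ℝ := fun i => if h : i ∈ Z then g ⟨i, h⟩ else 0 with hG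
    have hGsum : ∑ i, G i • u i = 0 := by
      rw [← hg]
      rw [← Finset.sum_subset (Finset.subset_univ Z)]
      · rw [← Finset.sum_coe_sort Z]
        refine Finset.sum_congr rfl fun i _ => ?_
        simp [hG]
      · intro i _ hi
        simp [hG, hi]
    have hev : ∀ᶠ ε : ℝ in 𝓝 0, ∀ i, i ∈ Z → |t i + ε * G i| < 1 ∧ |t i - ε * G i| < 1 := by
      rw [Filter.eventually_all]
      intro i
      by_cases hi : i ∈ Z
      · have hi' : |t i| < 1 := by simpa [hZ] using hi
        have c1 : Tendsto (fun ε : ℝ => |t i + ε * G i|) (𝓝 0) (𝓝 |t i + 0 * G i|) := by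
          apply Continuous.tendsto; fun_prop
        have c2 : Tendsto (fun ε : ℝ => |t i - ε * G i|) (𝓝 0) (𝓝 |t i - 0 * G i|) := by
          apply Continuous.tendsto; fun_prop
        have e1 := c1.eventually_lt_const (u := 1) (by simpa using hi')
        have e2 := c2.eventually_lt_const (u := 1) (by simpa using hi')
        filter_upwards [e1, e2] with ε h1 h2 _
        exact ⟨h1, h2⟩
      · exact Filter.Eventually.of_forall fun ε h => absurd h hi
    have hev2 : ∀ᶠ ε : ℝ in 𝓝[>] 0, ∀ i, i ∈ Z → |t i + ε * G i| < 1 ∧ |t i - ε * G i| < 1 :=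
      hev.filter_mono nhdsWithin_le_nhds
    obtain ⟨ε, hε1, hε0⟩ := (hev2.and self_mem_nhdsWithin).exists
    have hε0 : 0 < ε := hε0
    have hmem : ∀ σ : ℝ, σ = 1 ∨ σ = -1 → (t + (σ * ε) • G) ∈ K := by
      intro σ hσ
      constructor
      · intro i
        by_cases hi : i ∈ Z
        · obtain ⟨h1, h2⟩ := hε1 i hi
          rw [abs_lt] at h1 h2
          simp only [Pi.add_apply, Pi.smul_apply, smul_eq_mul, Set.mem_Icc]
          rcases hσ with rfl | rfl
          · constructor <;> nlinarith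
          · constructor <;> nlinarith
        · have : G i = 0 := by simp [hG, hi]
          simp only [Pi.add_apply, Pi.smul_apply, smul_eq_mul, this, mul_zero, add_zero]
          exact htK.1 i
      · have h2 := htK.2
        have : ∀ i, (t + (σ * ε) • G) i • u i = t i • u i + (σ * ε) • (G i • u i) := by
          intro i
          simp only [Pi.add_apply, Pi.smul_apply, smul_eq_mul, add_smul, mul_smul]
        simp only [this, Finset.sum_add_distrib, ← Finset.smul_sum, hGsum, h2]
        simp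
    have h1 := hmem 1 (Or.inl rfl)
    have h2 := hmem (-1) (Or.inr rfl)
    have hseg : t ∈ openSegment ℝ (t + ((1 : ℝ) * ε) • G) (t + ((-1 : ℝ) * ε) • G) := by
      refine ⟨1/2, 1/2, by norm_num, by norm_num, by norm_num, ?_⟩
      ext i
      simp only [Pi.add_apply, Pi.smul_apply, smul_eq_mul]
      ring
    have := (hext _ h1 _ h2 hseg)
    have h3 := congrFun this.1 i0.1
    simp only [Pi.add_apply, Pi.smul_apply, smul_eq_mul, one_mul] at h3
    have h4 : G i0.1 = g i0 := by simp [hG]
    rw [h4] at h3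
    have h5 : ε * g i0 = 0 := by linarith
    rcases mul_eq_zero.1 h5 with h | h
    · exact hε0.ne' h
    · exact hi0 h
  -- rounding
  refine ⟨fun i => if t i = 1 then 1 else if t i = -1 then -1 else 0, ?_, ?_, ?_⟩
  · intro i
    by_cases h1 : t i = 1
    · simp [h1]
    · by_cases h2 : t i = -1
      · left; simp only [if_neg h1, if_pos h2]
      · simp [h1, h2]
  · refine le_trans (Finset.card_le_card ?_) hZk
    intro i hi
    simp only [Finset.mem_filter, Finset.mem_univ, true_and] at hi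
    have hb := htK.1 i
    simp only [hZ, Finset.mem_filter, Finset.mem_univ, true_and]
    rw [abs_lt]
    by_cases h1 : t i = 1
    · simp [h1] at hi
    · by_cases h2 : t i = -1
      · rw [if_neg h1, if_pos h2] at hi
        norm_num at hi
      · exact ⟨lt_of_le_of_ne hb.1 (Ne.symm h2), lt_of_le_of_ne hb.2 h1⟩
  · intro l
    set w : Fin p → ℤ := fun i => if t i = 1 then 1 else if t i = -1 then -1 else 0 with hw
    have hsum0 : ∑ i, t i * u i l = 0 := by
      have := congrFun htK.2 l
      simpa using this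
    have e1 : ∑ i, (w i : ℝ) * u i l = ∑ i, ((w i : ℝ) - t i) * u i l := by
      simp only [sub_mul, Finset.sum_sub_distrib, hsum0, sub_zero]
    rw [e1]
    have e2 : ∀ i, |((w i : ℝ) - t i) * u i l| ≤ if i ∈ Z then ρ else 0 := by
      intro i
      have hb := htK.1 i
      by_cases h1 : t i = 1
      · have : (w i : ℝ) - t i = 0 := by simp [hw, h1]
        rw [this, zero_mul, abs_zero]
        split_ifs
        · exact hρ
        · exact le_rfl
      · by_cases h2 : t i = -1
        · have : (w i : ℝ) - t i = 0 := by simp only [hw, h2]; norm_num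
          rw [this, zero_mul, abs_zero]
          split_ifs
          · exact hρ
          · exact le_rfl
        · have hi : i ∈ Z := by
            simp only [hZ, Finset.mem_filter, Finset.mem_univ, true_and]
            rw [abs_lt]
            exact ⟨lt_of_le_of_ne hb.1 (Ne.symm h2), lt_of_le_of_ne hb.2 h1⟩
          rw [if_pos hi]
          have hwi : (w i : ℝ) = 0 := by simp [hw, h1, h2]
          rw [hwi, abs_mul]
          have : |0 - t i| ≤ 1 := by
            rw [zero_sub, abs_neg, abs_le]; exact hb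
          calc |0 - t i| * |u i l| ≤ 1 * ρ :=
                mul_le_mul this (hu i l) (abs_nonneg _) zero_le_one
            _ = ρ := one_mul _
    calc |∑ i, ((w i : ℝ) - t i) * u i l| ≤ ∑ i, |((w i : ℝ) - t i) * u i l| :=
          Finset.abs_sum_le_sum_abs _ _
      _ ≤ ∑ i, (if i ∈ Z then ρ else 0) := Finset.sum_le_sum fun i _ => e2 i
      _ = Z.card * ρ := by
          rw [← Finset.sum_filter]
          simp
      _ ≤ k * ρ := by
          have : (Z.card : ℝ) ≤ k := by exact_mod_cast hZk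
          nlinarith

/-- pairing lemma -/
lemma pairing {β : Type} [Fintype β] (c : ℕ → β) : ∀ n : ℕ, ∀ I : Finset ℕ, I.card = n →
    ∃ (p : ℕ) (a b : Fin p → ℕ), Function.Injective a ∧ Function.Injective b ∧
      (∀ i j, a i ≠ b j) ∧ (∀ i, a i ∈ I) ∧ (∀ i, b i ∈ I) ∧ (∀ i, c (a i) = c (b i)) ∧
      I.card ≤ 2 * p + Fintype.card β := by
  classical
  intro n
  induction n using Nat.strong_induction_on with
  | _ n ih =>
    intro I hI
    by_cases hle : I.card ≤ Fintype.card β
    · refine ⟨0, Fin.elim0, Fin.elim0, fun i => i.elim0, fun i => i.elim0, fun i => i.elim0,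
        fun i => i.elim0, fun i => i.elim0, fun i => i.elim0, by omega⟩
    · push Not at hle
      obtain ⟨x, hx, y, hy, hxy, hc⟩ := Finset.exists_ne_map_eq_of_card_lt_of_maps_to
        (s := I) (t := (Finset.univ : Finset β)) (by simpa using hle) (f := c)
        (fun _ _ => Finset.mem_univ _)
      have hsub : ({x, y} : Finset ℕ) ⊆ I := by
        intro z hz
        simp only [Finset.mem_insert, Finset.mem_singleton] at hz
        rcases hz with rfl | rfl
        · exact hx
        · exact hy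
      have hcard : (I \ {x, y}).card + 2 = I.card := by
        have h1 := Finset.card_sdiff_of_subset hsub
        have h2 : ({x, y} : Finset ℕ).card = 2 := Finset.card_pair hxy
        have h3 := Finset.card_le_card hsub
        omega
      obtain ⟨p, a, b, ha, hb, hab, haI, hbI, hcc, hcard2⟩ := ih (I \ {x, y}).card (by omega)
        (I \ {x, y}) rfl
      have haI' : ∀ i, a i ∈ I ∧ a i ≠ x ∧ a i ≠ y := by
        intro i; have := haI i; simpa using this
      have hbI' : ∀ i, b i ∈ I ∧ b i ≠ x ∧ b i ≠ y := by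
        intro i; have := hbI i; simpa using this
      refine ⟨p + 1, Fin.cons x a, Fin.cons y b, ?_, ?_, ?_, ?_, ?_, ?_, by omega⟩
      · rw [Fin.cons_injective_iff]
        exact ⟨by rintro ⟨i, hi⟩; exact (haI' i).2.1 hi, ha⟩
      · rw [Fin.cons_injective_iff]
        exact ⟨by rintro ⟨i, hi⟩; exact (hbI' i).2.2 hi, hb⟩
      · intro i j
        refine Fin.cases ?_ (fun i => ?_) i <;> refine Fin.cases ?_ (fun j => ?_) j
        · simpa using hxy
        · simpa using (hbI' j).2.1.symm
        · simpa using (haI' i).2.2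
        · simpa using hab i j
      · intro i
        refine Fin.cases ?_ (fun i => ?_) i
        · simpa using hx
        · simpa using (haI' i).1
      · intro i
        refine Fin.cases ?_ (fun i => ?_) i
        · simpa using hy
        · simpa using (hbI' i).1
      · intro i
        refine Fin.cases ?_ (fun i => ?_) i
        · simpa using hc
        · simpa using hcc i

/-- balancing lemma -/
lemma balance (k : ℕ) (η : ℝ) (hη : 0 < η) : ∃ C : ℕ, ∀ (I : Finset ℕ) (γ : ℕ → Fin k → ℝ),
    ∃ w : ℕ → ℤ, (∀ i, w i = -1 ∨ w i = 0 ∨ w i = 1) ∧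
      (I.filter (fun i => w i = 0)).card ≤ C ∧
      ∀ l, ∃ z : ℤ, |∑ i ∈ I, (w i : ℝ) * γ i l - z| < η := by
  classical
  obtain ⟨M, hM⟩ := exists_nat_gt (k / η)
  have hM0 : 0 < M := by
    have : (0 : ℝ) ≤ k / η := by positivity
    exact_mod_cast lt_of_le_of_lt this hM
  have hM0' : (0 : ℝ) < M := by exact_mod_cast hM0
  have hkM : (k : ℝ) * (1 / M) < η := by
    rw [div_lt_iff₀ hη] at hM
    rw [mul_one_div, div_lt_iff₀ hM0']
    linarith
  refine ⟨M ^ k + 2 * k, fun I γ => ?_⟩
  -- colouring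
  have hfl : ∀ x : ℝ, ⌊(M : ℝ) * Int.fract x⌋₊ < M := by
    intro x
    rw [Nat.floor_lt (by positivity)]
    have := Int.fract_lt_one x
    nlinarith
  set c : ℕ → (Fin k → Fin M) := fun i l => ⟨⌊(M : ℝ) * Int.fract (γ i l)⌋₊, hfl _⟩ with hc
  obtain ⟨p, a, b, ha, hb, hab, haI, hbI, hcc, hcard⟩ := pairing c I.card I rfl
  have hclose : ∀ i l, |Int.fract (γ (a i) l) - Int.fract (γ (b i) l)| ≤ 1 / M := by
    intro i l
    have h1 := congrFun (hcc i) l
    simp only [hc, Fin.mk.injEq] at h1
    have h2 := Nat.floor_le (a := (M : ℝ) * Int.fract (γ (a i) l)) (by positivity)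
    have h3 := Nat.lt_floor_add_one ((M : ℝ) * Int.fract (γ (a i) l))
    have h4 := Nat.floor_le (a := (M : ℝ) * Int.fract (γ (b i) l)) (by positivity)
    have h5 := Nat.lt_floor_add_one ((M : ℝ) * Int.fract (γ (b i) l))
    rw [h1] at h2 h3
    have h6 : |(M : ℝ) * (Int.fract (γ (a i) l) - Int.fract (γ (b i) l))| ≤ 1 := by
      rw [abs_le]; constructor <;> linarith
    rw [abs_mul, abs_of_pos hM0'] at h6
    rw [le_div_iff₀ hM0']
    linarith
  obtain ⟨v, hv1, hv2, hv3⟩ := vb p k
    (fun i l => Int.fract (γ (a i) l) - Int.fract (γ (b i) l)) (1 / M) (by positivity) hclose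
  set w : ℕ → ℤ := fun x => ∑ i, v i * ((if a i = x then 1 else 0) - (if b i = x then 1 else 0))
    with hw
  have hwa : ∀ i, w (a i) = v i := by
    intro i
    simp only [hw]
    rw [Finset.sum_eq_single i]
    · have : b i ≠ a i := (hab i i).symm
      simp [this]
    · intro j _ hj
      have h1 : a j ≠ a i := fun h => hj (ha h)
      have h2 : b j ≠ a i := (hab i j).symm
      simp [h1, h2]
    · simp
  have hwb : ∀ i, w (b i) = - v i := by
    intro i
    simp only [hw]
    rw [Finset.sum_eq_single i]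
    · have : a i ≠ b i := hab i i
      simp [this]
    · intro j _ hj
      have h1 : b j ≠ b i := fun h => hj (hb h)
      have h2 : a j ≠ b i := hab j i
      simp [h1, h2]
    · simp
  have hw0 : ∀ x, (∀ i, a i ≠ x) → (∀ i, b i ≠ x) → w x = 0 := by
    intro x h1 h2
    simp only [hw]
    refine Finset.sum_eq_zero fun i _ => ?_
    simp [h1 i, h2 i]
  refine ⟨w, ?_, ?_, ?_⟩
  · intro x
    by_cases h1 : ∃ i, a i = x
    · obtain ⟨i, rfl⟩ := h1
      rw [hwa]; exact hv1 i
    · by_cases h2 : ∃ i, b i = x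
      · obtain ⟨i, rfl⟩ := h2
        rw [hwb]
        rcases hv1 i with h | h | h <;> simp [h]
      · push Not at h1 h2
        right; left; exact hw0 x h1 h2
  · -- zeros
    have hsub : I.filter (fun i => w i = 0) ⊆
        (I \ (univ.image a ∪ univ.image b)) ∪
          ((univ.filter (fun i => v i = 0)).image a ∪ (univ.filter (fun i => v i = 0)).image b) := by
      intro x hx
      simp only [Finset.mem_filter] at hx
      simp only [Finset.mem_union, Finset.mem_sdiff, Finset.mem_image, Finset.mem_univ, true_and,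
        Finset.mem_filter]
      by_cases h1 : ∃ i, a i = x
      · obtain ⟨i, rfl⟩ := h1
        right; left
        exact ⟨i, by rw [← hwa]; exact hx.2, rfl⟩
      · by_cases h2 : ∃ i, b i = x
        · obtain ⟨i, rfl⟩ := h2
          right; right
          refine ⟨i, ?_, rfl⟩
          have := hx.2
          rw [hwb] at this
          omega
        · left
          exact ⟨hx.1, by tauto⟩
    refine le_trans (Finset.card_le_card hsub) ?_
    refine le_trans (Finset.card_union_le _ _) ?_
    have e1 : (I \ (univ.image a ∪ univ.image b)).card + 2 * p = I.card := by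
      have hs : univ.image a ∪ univ.image b ⊆ I := by
        intro x hx
        simp only [Finset.mem_union, Finset.mem_image, Finset.mem_univ, true_and] at hx
        rcases hx with ⟨i, rfl⟩ | ⟨i, rfl⟩
        · exact haI i
        · exact hbI i
      have hd : Disjoint (univ.image a) (univ.image b) := by
        rw [Finset.disjoint_left]
        intro x hx hx'
        simp only [Finset.mem_image, Finset.mem_univ, true_and] at hx hx'
        obtain ⟨i, rfl⟩ := hx
        obtain ⟨j, hj⟩ := hx'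
        exact hab i j hj.symm
      have h1 := Finset.card_sdiff_add_card_eq_card hs
      rw [Finset.card_union_of_disjoint hd, Finset.card_image_of_injective _ ha,
        Finset.card_image_of_injective _ hb] at h1
      simp only [Finset.card_univ, Fintype.card_fin] at h1
      omega
    have e2 : ((univ.filter (fun i => v i = 0)).image a ∪
        (univ.filter (fun i => v i = 0)).image b).card ≤ 2 * k := by
      refine le_trans (Finset.card_union_le _ _) ?_
      have h1 := Finset.card_image_le (s := univ.filter (fun i => v i = 0)) (f := a)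
      have h2 := Finset.card_image_le (s := univ.filter (fun i => v i = 0)) (f := b)
      omega
    have e3 : Fintype.card (Fin k → Fin M) = M ^ k := by simp
    rw [e3] at hcard
    omega
  · intro l
    have hsum : ∑ x ∈ I, (w x : ℝ) * γ x l = ∑ i, (v i : ℝ) * (γ (a i) l - γ (b i) l) := by
      have h1 : ∀ x, (w x : ℝ) * γ x l = ∑ i, ((v i : ℝ) * ((if a i = x then γ x l else 0)
          - (if b i = x then γ x l else 0))) := by
        intro x
        simp only [hw]
        push_cast
        rw [Finset.sum_mul]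
        refine Finset.sum_congr rfl fun i _ => ?_
        split_ifs <;> ring
      simp only [h1]
      rw [Finset.sum_comm]
      refine Finset.sum_congr rfl fun i _ => ?_
      rw [← Finset.mul_sum, Finset.sum_sub_distrib]
      rw [Finset.sum_ite_eq, Finset.sum_ite_eq, if_pos (haI i), if_pos (hbI i)]
    refine ⟨∑ i, v i * (⌊γ (a i) l⌋ - ⌊γ (b i) l⌋), ?_⟩
    rw [hsum]
    have h2 : ∑ i, (v i : ℝ) * (γ (a i) l - γ (b i) l)
        - ((∑ i, v i * (⌊γ (a i) l⌋ - ⌊γ (b i) l⌋) : ℤ) : ℝ)
        = ∑ i, (v i : ℝ) * (Int.fract (γ (a i) l) - Int.fract (γ (b i) l)) := by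
      push_cast
      rw [← Finset.sum_sub_distrib]
      refine Finset.sum_congr rfl fun i _ => ?_
      rw [← mul_sub]
      simp only [Int.fract]
      ring
    rw [h2]
    exact lt_of_le_of_lt (hv3 l) hkM



/-- scales -/
def N (i : ℕ) : ℕ := 2 ^ ((i + 4) ^ 2)
/-- half scales -/
def hh (i : ℕ) : ℕ := 2 ^ ((i + 5) ^ 2 - 1)
/-- quotients -/
def qq (i : ℕ) : ℕ := 2 ^ (2 * i + 8)

lemma N_pos (i : ℕ) : 0 < N i := by unfold N; positivity

lemma N_succ (i : ℕ) : N (i + 1) = 2 * hh i := by
  unfold N hh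
  rw [← pow_succ']
  have : 1 ≤ (i + 5) ^ 2 := Nat.one_le_pow _ _ (by omega)
  have h2 : (i + 1 + 4) ^ 2 = (i + 5) ^ 2 - 1 + 1 := by
    have : (i + 1 + 4) ^ 2 = (i + 5) ^ 2 := by ring
    omega
  exact congrArg (fun x => 2 ^ x) h2

lemma hh_eq (i : ℕ) : hh i = N i * qq i := by
  unfold N hh qq
  rw [← pow_add]
  congr 1
  have : (i + 5) ^ 2 = (i + 4) ^ 2 + (2 * i + 8) + 1 := by ring
  omega

lemma N_dvd_hh (i : ℕ) : N i ∣ hh i := ⟨_, hh_eq i⟩

lemma N_dvd {i j : ℕ} (h : i ≤ j) : N i ∣ N j := by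
  unfold N
  exact pow_dvd_pow _ (Nat.pow_le_pow_left (by omega) 2)

lemma qq_ge (i : ℕ) : 256 ≤ qq i := by
  unfold qq
  calc 256 = 2 ^ 8 := by norm_num
    _ ≤ 2 ^ (2 * i + 8) := Nat.pow_le_pow_right (by norm_num) (by omega)

/-- periodic sums -/
lemma sum_range_mul_periodic (a b : ℕ) (f : ℕ → ℕ) :
    ∑ y ∈ range (a * b), f (y % a) = b * ∑ v ∈ range a, f v := by
  induction b with
  | zero => simp
  | succ b ih =>
    rw [Nat.mul_succ, Finset.sum_range_add, ih]
    have : ∑ x ∈ range a, f ((a * b + x) % a) = ∑ v ∈ range a, f v := by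
      refine Finset.sum_congr rfl fun x hx => ?_
      rw [Nat.mul_add_mod, Nat.mod_eq_of_lt (Finset.mem_range.1 hx)]
    rw [this]
    ring

/-- number of high bits in `J` -/
def cJ (J : Finset ℕ) (y : ℕ) : ℕ := (J.filter (fun i => hh i ≤ y % N (i + 1))).card

lemma cJ_mod {L : ℕ} {J : Finset ℕ} (hJ : J ⊆ range L) (y : ℕ) : cJ J (y % N L) = cJ J y := by
  unfold cJ
  congr 1
  refine Finset.filter_congr fun i hi => ?_
  have hi' : i < L := Finset.mem_range.1 (hJ hi)
  rw [Nat.mod_mod_of_dvd _ (N_dvd (by omega))]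

lemma blockcount (L : ℕ) : ∀ (J : Finset ℕ), J ⊆ range L → ∀ v : ℕ,
    2 ^ J.card * (∑ y ∈ range (N L), if cJ J y = v then 1 else 0) = N L * J.card.choose v := by
  induction L with
  | zero =>
    intro J hJ v
    have : J = ∅ := by simpa using hJ
    subst this
    simp only [cJ, Finset.filter_empty, Finset.card_empty, pow_zero, one_mul]
    rcases Nat.eq_zero_or_pos v with rfl | hv
    · simp
    · have : ¬ (0 = v) := by omega
      simp [this, Nat.choose_eq_zero_of_lt hv]
  | succ L ih =>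
    intro J hJ v
    by_cases hL : L ∈ J
    · set J' := J.erase L with hJ'
      have hJ'sub : J' ⊆ range L := by
        intro i hi
        have h1 := hJ (Finset.mem_of_mem_erase hi)
        have h2 := Finset.ne_of_mem_erase hi
        rw [Finset.mem_range] at h1 ⊢
        omega
      have hLJ' : L ∉ J' := by simp [hJ']
      have hJins : J = insert L J' := by rw [hJ', Finset.insert_erase hL]
      have hcard : J.card = J'.card + 1 := by rw [hJins, Finset.card_insert_of_notMem hLJ']
      have hlow : ∀ y, y < hh L → cJ J y = cJ J' y := by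
        intro y hy
        unfold cJ
        rw [hJins, Finset.filter_insert, if_neg]
        rw [Nat.mod_eq_of_lt (by rw [N_succ]; omega)]
        omega
      have hhigh : ∀ y, y < hh L → cJ J (hh L + y) = cJ J' y + 1 := by
        intro y hy
        have h1 : cJ J' (hh L + y) = cJ J' y := by
          rw [← cJ_mod hJ'sub (hh L + y), ← cJ_mod hJ'sub y]
          congr 1
          rw [hh_eq, Nat.mul_add_mod]
        rw [← h1]
        unfold cJ
        rw [hJins, Finset.filter_insert, if_pos]
        · rw [Finset.card_insert_of_notMem]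
          simp [hLJ']
        · rw [Nat.mod_eq_of_lt (by rw [N_succ]; omega)]
          omega
      rw [N_succ, two_mul, Finset.sum_range_add]
      have e1 : ∑ x ∈ range (hh L), (if cJ J x = v then 1 else 0) =
          qq L * ∑ y ∈ range (N L), (if cJ J' y = v then 1 else 0) := by
        rw [← sum_range_mul_periodic, ← hh_eq]
        refine Finset.sum_congr rfl fun x hx => ?_
        rw [hlow x (Finset.mem_range.1 hx), cJ_mod hJ'sub]
      have e2 : ∑ x ∈ range (hh L), (if cJ J (hh L + x) = v then 1 else 0) =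
          qq L * ∑ y ∈ range (N L), (if cJ J' y + 1 = v then 1 else 0) := by
        rw [← sum_range_mul_periodic (N L) (qq L) (fun y => if cJ J' y + 1 = v then 1 else 0),
          ← hh_eq]
        refine Finset.sum_congr rfl fun x hx => ?_
        rw [hhigh x (Finset.mem_range.1 hx), cJ_mod hJ'sub]
      rw [e1, e2, hcard]
      rcases v with _ | v
      · have h1 := ih J' hJ'sub 0
        have h2 : ∀ y, (if cJ J' y + 1 = 0 then 1 else 0) = 0 := fun y => by simp
        simp only [h2, Finset.sum_const_zero, mul_zero, add_zero]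
        rw [Nat.choose_zero_right, mul_one] at h1 ⊢
        calc 2 ^ (J'.card + 1) * (qq L * ∑ y ∈ range (N L), (if cJ J' y = 0 then 1 else 0))
            = 2 * qq L * (2 ^ J'.card * ∑ y ∈ range (N L), (if cJ J' y = 0 then 1 else 0)) := by
              ring
          _ = 2 * qq L * N L := by rw [h1]
          _ = hh L + hh L := by rw [hh_eq]; ring
      · have h1 := ih J' hJ'sub (v + 1)
        have h2 := ih J' hJ'sub v
        have h3 : ∀ y, (if cJ J' y + 1 = v + 1 then 1 else 0) = (if cJ J' y = v then 1 else 0) :=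
          fun y => by simp
        simp only [h3]
        rw [Nat.choose_succ_succ]
        calc 2 ^ (J'.card + 1) * (qq L * ∑ y ∈ range (N L), (if cJ J' y = v + 1 then 1 else 0)
              + qq L * ∑ y ∈ range (N L), (if cJ J' y = v then 1 else 0))
            = 2 * qq L * (2 ^ J'.card * ∑ y ∈ range (N L), (if cJ J' y = v + 1 then 1 else 0)) +
              2 * qq L * (2 ^ J'.card * ∑ y ∈ range (N L), (if cJ J' y = v then 1 else 0)) := by
              ring
          _ = 2 * qq L * (N L * J'.card.choose (v + 1)) + 2 * qq L * (N L * J'.card.choose v) := by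
              rw [h1, h2]
          _ = (hh L + hh L) * (J'.card.choose v + J'.card.choose (v + 1)) := by rw [hh_eq]; ring
    · have hJ' : J ⊆ range L := by
        intro i hi
        have h1 := hJ hi
        rw [Finset.mem_range] at h1 ⊢
        have : i ≠ L := fun h => hL (h ▸ hi)
        omega
      have e1 : ∑ y ∈ range (N (L + 1)), (if cJ J y = v then 1 else 0) =
          (2 * qq L) * ∑ y ∈ range (N L), (if cJ J y = v then 1 else 0) := by
        rw [← sum_range_mul_periodic]
        have : N L * (2 * qq L) = N (L + 1) := by rw [N_succ, hh_eq]; ring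
        rw [this]
        refine Finset.sum_congr rfl fun x hx => ?_
        rw [cJ_mod hJ']
      rw [e1]
      have h1 := ih J hJ' v
      calc 2 ^ J.card * ((2 * qq L) * ∑ y ∈ range (N L), (if cJ J y = v then 1 else 0))
          = (2 * qq L) * (2 ^ J.card * ∑ y ∈ range (N L), (if cJ J y = v then 1 else 0)) := by ring
        _ = (2 * qq L) * (N L * J.card.choose v) := by rw [h1]
        _ = N (L + 1) * J.card.choose v := by rw [N_succ, hh_eq]; ring

lemma cb_bound (n : ℕ) : (2 * n + 1) * n.centralBinom ^ 2 ≤ 16 ^ n := by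
  induction n with
  | zero => simp
  | succ n ih =>
    have h := Nat.succ_mul_centralBinom_succ n
    have h2 : (n + 1) ^ 2 * ((2 * (n + 1) + 1) * (n + 1).centralBinom ^ 2) ≤
        (n + 1) ^ 2 * 16 ^ (n + 1) := by
      calc (n + 1) ^ 2 * ((2 * (n + 1) + 1) * (n + 1).centralBinom ^ 2)
          = (2 * n + 3) * ((n + 1) * (n + 1).centralBinom) ^ 2 := by ring
        _ = (2 * n + 3) * (2 * (2 * n + 1) * n.centralBinom) ^ 2 := by rw [h]
        _ = 4 * (2 * n + 3) * (2 * n + 1) * ((2 * n + 1) * n.centralBinom ^ 2) := by ring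
        _ ≤ 4 * (2 * n + 3) * (2 * n + 1) * 16 ^ n := Nat.mul_le_mul_left _ ih
        _ ≤ (n + 1) ^ 2 * 16 ^ (n + 1) := by
            rw [pow_succ 16 n]
            nlinarith [pow_pos (show 0 < 16 by norm_num) n]
    exact Nat.le_of_mul_le_mul_left h2 (by positivity)



/-- offsets -/
def T : ℕ → ℕ
  | 0 => 0
  | i + 1 => T i + 10 * N i

/-- residue of `m` at scale `i` -/
def u (i : ℕ) (m : ℤ) : ℤ := (m + T (i + 1)) % (N (i + 1) : ℤ)

/-- the residue at scale `i` is far from `0` and from the half point -/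
def Good (i : ℕ) (m : ℤ) : Prop :=
  (4 * (N i : ℤ) ≤ u i m ∧ u i m < hh i - 4 * N i) ∨
    ((hh i : ℤ) + 4 * N i ≤ u i m ∧ u i m < 2 * hh i - 4 * N i)

/-- high bit at scale `i` -/
def Hi (i : ℕ) (m : ℤ) : Prop := (hh i : ℤ) ≤ u i m

lemma flip_aux (n h U U' w e z : ℤ) (hn : 0 < n) (hw : w = -1 ∨ w = 0 ∨ w = 1)
    (he1 : -(3 * n) ≤ e) (he2 : e ≤ 3 * n) (hU : U - U' = w * h + e + 2 * h * z)
    (g : (4 * n ≤ U ∧ U < h - 4 * n) ∨ (h + 4 * n ≤ U ∧ U < 2 * h - 4 * n))
    (g' : (4 * n ≤ U' ∧ U' < h - 4 * n) ∨ (h + 4 * n ≤ U' ∧ U' < 2 * h - 4 * n)) :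
    (w = 0 → (h ≤ U ↔ h ≤ U')) ∧ (w ≠ 0 → (h ≤ U ↔ ¬ h ≤ U')) := by
  have hh : 0 < h := by rcases g with g | g <;> linarith [g.1, g.2]
  -- bound z
  have hz1 : -2 < z := by
    by_contra hcon
    push Not at hcon
    have : 2 * h * z ≤ 2 * h * (-2) := by nlinarith
    rcases hw with rfl | rfl | rfl <;> rcases g with g | g <;> rcases g' with g' | g' <;>
      linarith [g.1, g.2, g'.1, g'.2]
  have hz2 : z < 2 := by
    by_contra hcon
    push Not at hcon
    have : 2 * h * 2 ≤ 2 * h * z := by nlinarith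
    rcases hw with rfl | rfl | rfl <;> rcases g with g | g <;> rcases g' with g' | g' <;>
      linarith [g.1, g.2, g'.1, g'.2]
  have hz : z = -1 ∨ z = 0 ∨ z = 1 := by omega
  rcases hw with rfl | rfl | rfl <;> rcases hz with rfl | rfl | rfl <;>
    rcases g with ⟨g1, g2⟩ | ⟨g1, g2⟩ <;> rcases g' with ⟨g3, g4⟩ | ⟨g3, g4⟩ <;>
    refine ⟨fun h0 => ?_, fun h0 => ?_⟩ <;> constructor <;> intro h5 <;> omega

/-- If `a - a' = w * hh i + e + 2 * hh i * z` with `e` small then the high bit at scale `i` flips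
exactly when `w ≠ 0`. -/
lemma flip {i : ℕ} {a a' w e z : ℤ} (hw : w = -1 ∨ w = 0 ∨ w = 1)
    (he1 : -(3 * (N i : ℤ)) ≤ e) (he2 : e ≤ 3 * (N i : ℤ))
    (h : a - a' = w * hh i + e + 2 * hh i * z) (g : Good i a) (g' : Good i a') :
    (w = 0 → (Hi i a ↔ Hi i a')) ∧ (w ≠ 0 → (Hi i a ↔ ¬ Hi i a')) := by
  have hN : (0 : ℤ) < N i := by exact_mod_cast N_pos i
  have e1 := Int.emod_add_mul_ediv (a + T (i + 1)) (N (i + 1) : ℤ)
  have e2 := Int.emod_add_mul_ediv (a' + T (i + 1)) (N (i + 1) : ℤ)
  have e3 : (N (i + 1) : ℤ) = 2 * hh i := by exact_mod_cast N_succ i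
  have e4 : u i a - u i a' = w * hh i + e + 2 * hh i *
      (z - (a + T (i + 1)) / (N (i + 1) : ℤ) + (a' + T (i + 1)) / (N (i + 1) : ℤ)) := by
    unfold u
    rw [e3] at e1 e2 ⊢
    linear_combination e1 - e2 + h
  exact flip_aux (N i) (hh i) (u i a) (u i a') w e _ hN hw he1 he2 e4 g g'

lemma sum_hh_le (i : ℕ) : ∑ i' ∈ range i, hh i' ≤ N i := by
  induction i with
  | zero => simp
  | succ i ih =>
    rw [Finset.sum_range_succ, N_succ]
    have : N i ≤ hh i := Nat.le_of_dvd (by unfold hh; positivity) (N_dvd_hh i)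
    omega

lemma two_hh_dvd {i i' : ℕ} (h : i < i') : (2 * (hh i : ℤ)) ∣ hh i' := by
  have h1 : N (i + 1) ∣ hh i' := (N_dvd (by omega)).trans (N_dvd_hh i')
  rw [N_succ] at h1
  exact_mod_cast h1

lemma decomp_r (I : Finset ℕ) (w : ℕ → ℤ) (hw : ∀ i, w i = -1 ∨ w i = 0 ∨ w i = 1) (i : ℕ) :
    ∃ e z : ℤ, -(N i : ℤ) ≤ e ∧ e ≤ N i ∧
      ∑ i' ∈ I, w i' * (hh i' : ℤ) = (if i ∈ I then w i else 0) * hh i + e + 2 * hh i * z := by
  classical
  have hsplit : ∑ i' ∈ I, w i' * (hh i' : ℤ) = (if i ∈ I then w i else 0) * hh i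
      + ∑ i' ∈ I.filter (· < i), w i' * (hh i' : ℤ)
      + ∑ i' ∈ I.filter (i < ·), w i' * (hh i' : ℤ) := by
    rw [Finset.sum_filter, Finset.sum_filter]
    have : (if i ∈ I then w i else 0) * (hh i : ℤ) =
        ∑ i' ∈ I, if i' = i then w i' * (hh i' : ℤ) else 0 := by
      rw [Finset.sum_ite_eq']
      split_ifs <;> simp
    rw [this, ← Finset.sum_add_distrib, ← Finset.sum_add_distrib]
    refine Finset.sum_congr rfl fun i' _ => ?_
    rcases lt_trichotomy i' i with h | h | h
    · simp [h, h.ne, h.not_gt]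
    · simp [h]
    · simp [h, h.ne', h.not_gt]
  have hdvd : (2 * (hh i : ℤ)) ∣ ∑ i' ∈ I.filter (i < ·), w i' * (hh i' : ℤ) := by
    refine Finset.dvd_sum fun i' hi' => ?_
    have := (Finset.mem_filter.1 hi').2
    exact Dvd.dvd.mul_left (two_hh_dvd this) _
  obtain ⟨z, hz⟩ := hdvd
  have hbd : |∑ i' ∈ I.filter (· < i), w i' * (hh i' : ℤ)| ≤ N i := by
    calc |∑ i' ∈ I.filter (· < i), w i' * (hh i' : ℤ)|
        ≤ ∑ i' ∈ I.filter (· < i), |w i' * (hh i' : ℤ)| := Finset.abs_sum_le_sum_abs _ _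
      _ ≤ ∑ i' ∈ I.filter (· < i), (hh i' : ℤ) := by
          refine Finset.sum_le_sum fun i' _ => ?_
          have h0 : (0 : ℤ) ≤ hh i' := by positivity
          rw [abs_mul, abs_of_nonneg h0]
          rcases hw i' with h | h | h <;> simp [h]
      _ ≤ ∑ i' ∈ range i, (hh i' : ℤ) := by
          refine Finset.sum_le_sum_of_subset_of_nonneg ?_ fun _ _ _ => by positivity
          intro x hx
          simp only [Finset.mem_filter] at hx
          exact Finset.mem_range.2 hx.2
      _ ≤ N i := by exact_mod_cast sum_hh_le i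
  rw [abs_le] at hbd
  exact ⟨_, z, hbd.1, hbd.2, by rw [hsplit, hz]⟩

/-- the generating sequence `2 ^ (n ^ 2)`, `n ≥ 1` -/
def xx (n : ℕ) : ℕ := 2 ^ ((n + 1) ^ 2)

lemma sum_xx_le (k : ℕ) : ∑ n ∈ range k, xx n ≤ 2 * 2 ^ (k ^ 2) := by
  induction k with
  | zero => simp
  | succ k ih =>
    rw [Finset.sum_range_succ]
    have : 2 * 2 ^ (k ^ 2) ≤ xx k := by
      unfold xx
      rw [← pow_succ']
      refine Nat.pow_le_pow_right (by norm_num) ?_
      have : (k + 1) ^ 2 = k ^ 2 + 2 * k + 1 := by ring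
      omega
    unfold xx at *
    omega

lemma decomp_s (F : Finset ℕ) (i : ℕ) :
    ∃ e z : ℤ, 0 ≤ e ∧ e ≤ 2 * N i ∧ ∑ n ∈ F, (xx n : ℤ) = e + 2 * hh i * z := by
  classical
  have hsplit : ∑ n ∈ F, (xx n : ℤ) =
      ∑ n ∈ F.filter (· < i + 4), (xx n : ℤ) + ∑ n ∈ F.filter (fun n => ¬ n < i + 4), (xx n : ℤ) :=
    (Finset.sum_filter_add_sum_filter_not _ _ _).symm
  have hdvd : (2 * (hh i : ℤ)) ∣ ∑ n ∈ F.filter (fun n => ¬ n < i + 4), (xx n : ℤ) := by
    refine Finset.dvd_sum fun n hn => ?_
    have hn' := (Finset.mem_filter.1 hn).2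
    have : N (i + 1) ∣ xx n := by
      unfold N xx
      exact pow_dvd_pow _ (Nat.pow_le_pow_left (by omega) 2)
    rw [N_succ] at this
    exact_mod_cast this
  obtain ⟨z, hz⟩ := hdvd
  refine ⟨_, z, ?_, ?_, by rw [hsplit, hz]⟩
  · exact Finset.sum_nonneg fun _ _ => by positivity
  · have h1 : ∑ n ∈ F.filter (· < i + 4), (xx n : ℤ) ≤ ∑ n ∈ range (i + 4), (xx n : ℤ) := by
      refine Finset.sum_le_sum_of_subset_of_nonneg ?_ fun _ _ _ => by positivity
      intro x hx
      simp only [Finset.mem_filter] at hx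
      exact Finset.mem_range.2 hx.2
    refine h1.trans ?_
    have := sum_xx_le (i + 4)
    unfold N
    exact_mod_cast this

section blocks

variable (D C s : ℕ → ℕ)

/-- the `j`-th block of scales -/
def blk (j : ℕ) : Finset ℕ := Ico (s j) (s (j + 1))

open Classical in
/-- number of high bits in block `j` -/
noncomputable def cnt (j : ℕ) (m : ℤ) : ℕ := ((blk s j).filter (fun i => Hi i m)).card

/-- block `j` is not balanced at `m` -/
def OKb (j : ℕ) (m : ℤ) : Prop :=
  ¬ (2 * D j ≤ 2 * cnt s j m + C j ∧ 2 * cnt s j m ≤ 2 * D j + C j)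

/-- majority of high bits in block `j` -/
def Maj (j : ℕ) (m : ℤ) : Prop := D j < cnt s j m

/-- all scales good, all blocks unbalanced -/
def GG : Set ℤ := {m | (∀ i, Good i m) ∧ ∀ j, OKb D C s j m}

/-- the set with parity `par` -/
def AA (par : ℕ) : Set ℤ := {m | m ∈ GG D C s ∧ {j | Maj D s j m}.ncard % 2 = par}

variable {D C s}

lemma blk_disj (hs : ∀ j, s (j + 1) = s j + 2 * D j) {i j j' : ℕ} (hi : i ∈ blk s j)
    (hi' : i ∈ blk s j') : j = j' := by
  have hmono : Monotone s := monotone_nat_of_le_succ fun j => by rw [hs]; omega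
  simp only [blk, Finset.mem_Ico] at hi hi'
  by_contra hne
  rcases Nat.lt_or_gt_of_ne hne with h | h
  · have := hmono (show j + 1 ≤ j' by omega)
    omega
  · have := hmono (show j' + 1 ≤ j by omega)
    omega

/-- the key combinatorial step -/
lemma avoid (hs : ∀ j, s (j + 1) = s j + 2 * D j)
    (hfin : ∀ m, {j | Maj D s j m}.Finite) {par : ℕ} {a a' : ℤ} (ha : a ∈ AA D C s par)
    (ha' : a' ∈ AA D C s par) {j0 : ℕ} {w : ℕ → ℤ} (hw : ∀ i, w i = -1 ∨ w i = 0 ∨ w i = 1)
    (hz : ((blk s j0).filter (fun i => w i = 0)).card ≤ C j0) {F : Finset ℕ}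
    (h : a - a' = ∑ i ∈ blk s j0, w i * (hh i : ℤ) - ∑ n ∈ F, (xx n : ℤ)) : False := by
  classical
  obtain ⟨⟨hg, hb⟩, hp⟩ := ha
  obtain ⟨⟨hg', hb'⟩, hp'⟩ := ha'
  -- behaviour of each bit
  have hbit : ∀ i, ((if i ∈ blk s j0 then w i else 0) = 0 → (Hi i a ↔ Hi i a')) ∧
      ((if i ∈ blk s j0 then w i else 0) ≠ 0 → (Hi i a ↔ ¬ Hi i a')) := by
    intro i
    obtain ⟨e1, z1, h1, h2, h3⟩ := decomp_r (blk s j0) w hw i
    obtain ⟨e2, z2, h4, h5, h6⟩ := decomp_s F i
    refine flip (e := e1 - e2) (z := z1 - z2) ?_ ?_ ?_ ?_ (hg i) (hg' i)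
    · split_ifs
      · exact hw i
      · right; left; rfl
    · linarith
    · linarith
    · rw [h, h3, h6]; ring
  have hother : ∀ j, j ≠ j0 → cnt s j a = cnt s j a' := by
    intro j hj
    unfold cnt
    congr 1
    refine Finset.filter_congr fun i hi => ?_
    have : i ∉ blk s j0 := fun h' => hj (blk_disj hs hi h')
    exact (hbit i).1 (by simp [this])
  -- block j0
  set Z := (blk s j0).filter (fun i => w i = 0) with hZ
  have hcard : (blk s j0).card = 2 * D j0 := by
    simp only [blk, Nat.card_Ico, hs]; omega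
  have hle : cnt s j0 a + cnt s j0 a' ≤ 2 * D j0 + Z.card ∧
      2 * D j0 ≤ cnt s j0 a + cnt s j0 a' + Z.card := by
    have h1 : cnt s j0 a = ∑ i ∈ blk s j0, if Hi i a then 1 else 0 := by
      unfold cnt; rw [Finset.card_filter]
    have h2 : cnt s j0 a' = ∑ i ∈ blk s j0, if Hi i a' then 1 else 0 := by
      unfold cnt; rw [Finset.card_filter]
    have h3 : Z.card = ∑ i ∈ blk s j0, if w i = 0 then 1 else 0 := by
      rw [hZ, Finset.card_filter]
    have h4 : 2 * D j0 = ∑ i ∈ blk s j0, 1 := by rw [← hcard]; simp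
    rw [h1, h2, h3, h4, ← Finset.sum_add_distrib, ← Finset.sum_add_distrib,
      ← Finset.sum_add_distrib]
    constructor
    · refine Finset.sum_le_sum fun i hi => ?_
      have hb0 := hbit i
      rw [if_pos hi] at hb0
      by_cases hwi : w i = 0
      · rw [if_pos hwi]; split_ifs <;> omega
      · have := hb0.2 hwi
        by_cases hh1 : Hi i a'
        · have : ¬ Hi i a := fun h' => (this.1 h') hh1
          simp [this, hh1, hwi]
        · have : Hi i a := this.2 hh1
          simp [this, hh1, hwi]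
    · refine Finset.sum_le_sum fun i hi => ?_
      have hb0 := hbit i
      rw [if_pos hi] at hb0
      by_cases hwi : w i = 0
      · rw [if_pos hwi]; split_ifs <;> omega
      · have := hb0.2 hwi
        by_cases hh1 : Hi i a'
        · have : ¬ Hi i a := fun h' => (this.1 h') hh1
          simp [this, hh1, hwi]
        · have : Hi i a := this.2 hh1
          simp [this, hh1, hwi]
  have hflip : Maj D s j0 a ↔ ¬ Maj D s j0 a' := by
    have o1 := hb j0
    have o2 := hb' j0
    unfold OKb at o1 o2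
    unfold Maj
    omega
  -- parity
  have key : ∀ X Y : Set ℕ, X.Finite → Y.Finite → j0 ∈ X → j0 ∉ Y →
      (∀ j, j ≠ j0 → (j ∈ X ↔ j ∈ Y)) → X.ncard = Y.ncard + 1 := by
    intro X Y hX hY h1 h2 h3
    have : X = insert j0 Y := by
      ext j
      by_cases hj : j = j0
      · subst hj; simp [h1]
      · simp [hj, h3 j hj]
    rw [this, Set.ncard_insert_of_notMem h2 hY]
  have hsame : ∀ j, j ≠ j0 → (Maj D s j a ↔ Maj D s j a') := by
    intro j hj
    unfold Maj
    rw [hother j hj]
  by_cases hM : Maj D s j0 a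
  · have := key {j | Maj D s j a} {j | Maj D s j a'} (hfin a) (hfin a') hM (hflip.1 hM) hsame
    omega
  · have hM' : Maj D s j0 a' := by
      by_contra hcon
      exact hM (hflip.2 hcon)
    have := key {j | Maj D s j a'} {j | Maj D s j a} (hfin a') (hfin a) hM' hM
      (fun j hj => (hsame j hj).symm)
    omega

end blocks



lemma T_mono : Monotone T := monotone_nat_of_le_succ fun i => by simp [T]

lemma N_mono {i j : ℕ} (h : i ≤ j) : N i ≤ N j := Nat.le_of_dvd (N_pos j) (N_dvd h)

lemma hh_ge (i : ℕ) : 256 * N i ≤ hh i := by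
  rw [hh_eq, mul_comm]
  exact Nat.mul_le_mul_left _ (qq_ge i)

lemma T_le (i : ℕ) : T i ≤ N i := by
  induction i with
  | zero => simp [T]
  | succ i ih =>
    have h1 := hh_ge i
    simp only [T]
    rw [N_succ]
    omega

lemma T_dvd {i L : ℕ} (h : i ≤ L) : ((N i : ℤ)) ∣ (T L : ℤ) - T i := by
  induction L, h using Nat.le_induction with
  | base => simp
  | succ L hL ih =>
    have h1 : (N i : ℤ) ∣ (N L : ℤ) := by exact_mod_cast N_dvd hL
    have h2 : (T (L + 1) : ℤ) - T i = ((T L : ℤ) - T i) + 10 * N L := by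
      simp only [T]; push_cast; ring
    rw [h2]
    exact dvd_add ih (Dvd.dvd.mul_left h1 _)

lemma low {i : ℕ} {m : ℤ} (h1 : 4 * (N i : ℤ) ≤ m + T (i + 1)) (h2 : m + T (i + 1) ≤ 100 * N i) :
    Good i m ∧ ¬ Hi i m := by
  have h3 : 256 * (N i : ℤ) ≤ hh i := by exact_mod_cast hh_ge i
  have h4 : (N (i + 1) : ℤ) = 2 * hh i := by exact_mod_cast N_succ i
  have h5 : (0 : ℤ) < N i := by exact_mod_cast N_pos i
  have h6 : u i m = m + T (i + 1) := by
    unfold u
    exact Int.emod_eq_of_lt (by linarith) (by linarith)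
  constructor
  · left
    rw [h6]
    exact ⟨h1, by linarith⟩
  · unfold Hi
    rw [h6]
    push Not
    linarith

section blocks2

variable {D C s : ℕ → ℕ}

lemma s_ge (hs : ∀ j, s (j + 1) = s j + 2 * D j) (hD : ∀ j, C j < D j) (j : ℕ) : j ≤ s j := by
  induction j with
  | zero => simp
  | succ j ih => rw [hs]; have := hD j; omega

lemma fin_maj (hs : ∀ j, s (j + 1) = s j + 2 * D j) (hD : ∀ j, C j < D j) (m : ℤ) :
    {j | Maj D s j m}.Finite := by
  classical
  refine Set.Finite.subset (Set.finite_lt_nat (m.natAbs)) ?_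
  intro j hj
  simp only [Set.mem_ofPred_eq]
  by_contra hcon
  push Not at hcon
  have hzero : cnt s j m = 0 := by
    unfold cnt
    rw [Finset.card_eq_zero, Finset.filter_eq_empty_iff]
    intro i hi
    simp only [blk, Finset.mem_Ico] at hi
    have h1 : j ≤ i := (s_ge hs hD j).trans hi.1
    have h2 : m.natAbs ≤ N i := by
      have h3 : i < N i := by
        unfold N
        calc i < 2 ^ i := Nat.lt_two_pow_self
          _ ≤ 2 ^ ((i + 4) ^ 2) := Nat.pow_le_pow_right (by norm_num) (by nlinarith)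
      omega
    have h4 : (|m| : ℤ) ≤ N i := by
      rw [Int.abs_eq_natAbs]; exact_mod_cast h2
    rw [abs_le] at h4
    have h5 : (T i : ℤ) ≤ N i := by exact_mod_cast T_le i
    have h6 : (0 : ℤ) ≤ T i := by positivity
    have h7 : (T (i + 1) : ℤ) = T i + 10 * N i := by simp only [T]; push_cast; ring
    exact (low (by linarith) (by linarith)).2
  have : D j < cnt s j m := hj
  omega

/-- in the window the residues at the scales below `L` are the residues of `y` -/
lemma u_window {L i : ℕ} (hi : i < L) (y : ℕ) : u i ((y : ℤ) - T L) = ((y % N (i + 1) : ℕ) : ℤ) := by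
  unfold u
  obtain ⟨z, hz⟩ := T_dvd (show i + 1 ≤ L by omega)
  have : (y : ℤ) - T L + T (i + 1) = y + (N (i + 1) : ℤ) * (-z) := by linarith
  rw [this, Int.add_mul_emod_self_left]
  push_cast
  rfl

lemma high_window {L i : ℕ} (hi : L ≤ i) {y : ℕ} (hy : y < N L) :
    Good i ((y : ℤ) - T L) ∧ ¬ Hi i ((y : ℤ) - T L) := by
  have h1 : (T L : ℤ) ≤ T i := by exact_mod_cast T_mono hi
  have h2 : (T i : ℤ) ≤ N i := by exact_mod_cast T_le i
  have h3 : (y : ℤ) ≤ N i := by exact_mod_cast (hy.le.trans (N_mono hi))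
  have h4 : (0 : ℤ) ≤ y := by positivity
  have h5 : (0 : ℤ) ≤ T L := by positivity
  have h7 : (T (i + 1) : ℤ) = T i + 10 * N i := by simp only [T]; push_cast; ring
  have h8 : (0 : ℤ) < N i := by exact_mod_cast N_pos i
  exact low (by linarith) (by linarith)

lemma cnt_window {L j : ℕ} (hj : s (j + 1) ≤ L) (y : ℕ) :
    cnt s j ((y : ℤ) - T L) = cJ (blk s j) y := by
  classical
  unfold cnt cJ
  congr 1
  refine Finset.filter_congr fun i hi => ?_
  simp only [blk, Finset.mem_Ico] at hi
  unfold Hi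
  rw [u_window (show i < L by omega)]
  norm_cast

/-- counting residues with a bad scale `i` -/
lemma bad1 {L i : ℕ} (hi : i < L) [DecidablePred fun y : ℕ => Good i ((y : ℤ) - T L)] :
    ((range (N L)).filter (fun y : ℕ => ¬ Good i ((y : ℤ) - T L))).card * 2 ^ (2 * i + 5) ≤ N L := by
  classical
  obtain ⟨b, hb⟩ := N_dvd (show i + 1 ≤ L by omega)
  set P : ℕ → Prop := fun v => v < 4 * N i ∨ (hh i - 4 * N i ≤ v ∧ v < hh i + 4 * N i) ∨
    (2 * hh i - 4 * N i ≤ v) with hP
  have h0 := hh_ge i
  have h00 := N_pos i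
  have h1 : ((range (N L)).filter (fun y : ℕ => ¬ Good i ((y : ℤ) - T L))).card ≤
      ∑ y ∈ range (N L), (fun v => if P v then 1 else 0) (y % N (i + 1)) := by
    rw [Finset.card_filter]
    refine Finset.sum_le_sum fun y _ => ?_
    by_cases hg : Good i ((y : ℤ) - T L)
    · simp [hg]
    · have hp : P (y % N (i + 1)) := by
        unfold Good at hg
        rw [u_window hi] at hg
        simp only [hP]
        push Not at hg
        have hlt := Nat.mod_lt y (N_pos (i + 1))
        rw [N_succ] at hlt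
        by_contra hcon
        push Not at hcon
        obtain ⟨c1, c2, c3⟩ := hcon
        have d1 := hg.1 (by exact_mod_cast c1)
        rw [N_succ] at *
        rcases Nat.lt_or_ge (y % (2 * hh i)) (hh i - 4 * N i) with h | h
        · have : ((y % (2 * hh i) : ℕ) : ℤ) < hh i - 4 * N i := by omega
          linarith
        · have h' := c2 h
          have d2 := hg.2 (by exact_mod_cast h')
          omega
      simp [hg, hp]
  have h2 : ∑ y ∈ range (N L), (fun v => if P v then 1 else 0) (y % N (i + 1)) =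
      b * ∑ v ∈ range (N (i + 1)), if P v then 1 else 0 := by
    rw [hb]
    exact sum_range_mul_periodic (N (i + 1)) b (fun v => if P v then 1 else 0)
  have h3 : ∑ v ∈ range (N (i + 1)), (if P v then 1 else 0) ≤ 16 * N i := by
    rw [← Finset.card_filter]
    have hsub : (range (N (i + 1))).filter P ⊆ range (4 * N i) ∪
        (Ico (hh i - 4 * N i) (hh i + 4 * N i) ∪ Ico (2 * hh i - 4 * N i) (2 * hh i)) := by
      intro v hv
      simp only [Finset.mem_filter, Finset.mem_range, N_succ, hP] at hv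
      simp only [Finset.mem_union, Finset.mem_range, Finset.mem_Ico]
      omega
    refine (Finset.card_le_card hsub).trans ?_
    refine (Finset.card_union_le _ _).trans ?_
    have := Finset.card_union_le (Ico (hh i - 4 * N i) (hh i + 4 * N i))
      (Ico (2 * hh i - 4 * N i) (2 * hh i))
    simp only [Nat.card_Ico, Finset.card_range] at *
    omega
  have h4 : N L = N i * (2 ^ (2 * i + 5) * 16) * b := by
    rw [hb, N_succ, hh_eq]
    unfold qq
    rw [show 2 * i + 8 = (2 * i + 5) + 3 by ring, pow_add]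
    ring
  calc ((range (N L)).filter (fun y : ℕ => ¬ Good i ((y : ℤ) - T L))).card * 2 ^ (2 * i + 5)
      ≤ (b * (16 * N i)) * 2 ^ (2 * i + 5) := by
        refine Nat.mul_le_mul_right _ ?_
        rw [h2] at h1
        exact h1.trans (Nat.mul_le_mul_left _ h3)
    _ = N L := by rw [h4]; ring

/-- counting residues with a balanced block `j` -/
lemma bad2 (hs : ∀ j, s (j + 1) = s j + 2 * D j)
    (hD : ∀ j, D j = (C j + 1) ^ 2 * 4 ^ (j + 3)) {L j : ℕ} (hj : s (j + 1) ≤ L)
    [DecidablePred fun y : ℕ => OKb D C s j ((y : ℤ) - T L)] :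
    ((range (N L)).filter (fun y : ℕ => ¬ OKb D C s j ((y : ℤ) - T L))).card * 2 ^ (j + 3)
      ≤ N L := by
  classical
  set J := blk s j with hJ
  have hJcard : J.card = 2 * D j := by
    simp only [hJ, blk, Nat.card_Ico, hs]; omega
  have hJsub : J ⊆ range L := by
    intro i hi
    simp only [hJ, blk, Finset.mem_Ico] at hi
    rw [Finset.mem_range]; omega
  set V := Icc (D j - C j / 2) (D j + C j / 2) with hV
  have hVcard : V.card ≤ C j + 1 := by
    simp only [hV, Nat.card_Icc]; omega
  have h1 : ((range (N L)).filter (fun y : ℕ => ¬ OKb D C s j ((y : ℤ) - T L))).card ≤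
      ∑ v ∈ V, ∑ y ∈ range (N L), if cJ J y = v then 1 else 0 := by
    rw [Finset.sum_comm, Finset.card_filter]
    refine Finset.sum_le_sum fun y _ => ?_
    by_cases hg : OKb D C s j ((y : ℤ) - T L)
    · simp [hg]
    · have hg' := hg
      unfold OKb at hg'
      rw [not_not, cnt_window hj] at hg'
      have hmem : cJ J y ∈ V := by
        simp only [hV, Finset.mem_Icc]
        rw [← hJ] at hg'
        omega
      rw [Finset.sum_ite_eq, if_pos hmem]
      simp [hg]
  have h2 : 4 ^ D j * ∑ v ∈ V, ∑ y ∈ range (N L), (if cJ J y = v then 1 else 0) ≤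
      (C j + 1) * (N L * (D j).centralBinom) := by
    rw [Finset.mul_sum]
    calc ∑ v ∈ V, 4 ^ D j * ∑ y ∈ range (N L), (if cJ J y = v then 1 else 0)
        = ∑ v ∈ V, N L * J.card.choose v := by
          refine Finset.sum_congr rfl fun v _ => ?_
          rw [← blockcount L J hJsub v, hJcard, pow_mul]
          norm_num
      _ ≤ ∑ v ∈ V, N L * (D j).centralBinom := by
          refine Finset.sum_le_sum fun v _ => ?_
          rw [hJcard]
          exact Nat.mul_le_mul_left _ (Nat.choose_le_centralBinom v (D j))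
      _ = V.card * (N L * (D j).centralBinom) := by simp
      _ ≤ _ := Nat.mul_le_mul_right _ hVcard
  have h3 : 2 ^ (j + 3) * ((C j + 1) * (D j).centralBinom) ≤ 4 ^ D j := by
    have h4 := cb_bound (D j)
    have h5 : (2 ^ (j + 3) * ((C j + 1) * (D j).centralBinom)) ^ 2 ≤ (4 ^ D j) ^ 2 := by
      calc (2 ^ (j + 3) * ((C j + 1) * (D j).centralBinom)) ^ 2
          = ((C j + 1) ^ 2 * (2 ^ (j + 3)) ^ 2) * (D j).centralBinom ^ 2 := by ring
        _ = D j * (D j).centralBinom ^ 2 := by
            rw [hD j, ← pow_mul, mul_comm (j + 3) 2, pow_mul]; norm_num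
        _ ≤ (2 * D j + 1) * (D j).centralBinom ^ 2 := Nat.mul_le_mul_right _ (by omega)
        _ ≤ 16 ^ D j := h4
        _ = (4 ^ D j) ^ 2 := by rw [← pow_mul, mul_comm, pow_mul]; norm_num
    exact (Nat.pow_le_pow_iff_left (by norm_num)).1 h5
  set c := ((range (N L)).filter (fun y : ℕ => ¬ OKb D C s j ((y : ℤ) - T L))).card
  have h6 : 4 ^ D j * (c * 2 ^ (j + 3)) ≤ 4 ^ D j * N L := by
    calc 4 ^ D j * (c * 2 ^ (j + 3)) = (4 ^ D j * c) * 2 ^ (j + 3) := by ring
      _ ≤ ((C j + 1) * (N L * (D j).centralBinom)) * 2 ^ (j + 3) :=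
          Nat.mul_le_mul_right _ ((Nat.mul_le_mul_left _ h1).trans h2)
      _ = (2 ^ (j + 3) * ((C j + 1) * (D j).centralBinom)) * N L := by ring
      _ ≤ 4 ^ D j * N L := Nat.mul_le_mul_right _ h3
  exact Nat.le_of_mul_le_mul_left h6 (by positivity)

open Classical in
/-- at least half of the window is good -/
lemma window_half (hs : ∀ j, s (j + 1) = s j + 2 * D j)
    (hD : ∀ j, D j = (C j + 1) ^ 2 * 4 ^ (j + 3)) (J : ℕ) :
    (N (s J) : ℝ) / 2 ≤
      ((range (N (s J))).filter (fun y : ℕ => ((y : ℤ) - T (s J)) ∈ GG D C s)).card := by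
  classical
  set L := s J with hL
  have hCD : ∀ j, C j < D j := by
    intro j
    rw [hD]
    have : 1 ≤ 4 ^ (j + 3) := Nat.one_le_pow _ _ (by norm_num)
    nlinarith
  have hmono : Monotone s := monotone_nat_of_le_succ fun j => by rw [hs]; omega
  have hsub : range (N L) ⊆ ((range (N L)).filter (fun y : ℕ => ((y : ℤ) - T L) ∈ GG D C s)) ∪
      ((range L).biUnion (fun i => (range (N L)).filter (fun y : ℕ => ¬ Good i ((y : ℤ) - T L))) ∪
       (range J).biUnion
        (fun j => (range (N L)).filter (fun y : ℕ => ¬ OKb D C s j ((y : ℤ) - T L)))) := by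
    intro y hy
    simp only [Finset.mem_union, Finset.mem_filter, Finset.mem_biUnion]
    by_cases h1 : ∃ i ∈ range L, ¬ Good i ((y : ℤ) - T L)
    · obtain ⟨i, hi, h⟩ := h1
      right; left; exact ⟨i, hi, hy, h⟩
    by_cases h2 : ∃ j ∈ range J, ¬ OKb D C s j ((y : ℤ) - T L)
    · obtain ⟨j, hj, h⟩ := h2
      right; right; exact ⟨j, hj, hy, h⟩
    push Not at h1 h2
    left
    refine ⟨hy, ?_, ?_⟩
    · intro i
      by_cases hi : i < L
      · exact h1 i (Finset.mem_range.2 hi)
      · exact (high_window (by omega) (Finset.mem_range.1 hy)).1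
    · intro j
      by_cases hj : j < J
      · exact h2 j (Finset.mem_range.2 hj)
      · have hzero : cnt s j ((y : ℤ) - T L) = 0 := by
          unfold cnt
          rw [Finset.card_eq_zero, Finset.filter_eq_empty_iff]
          intro i hi
          simp only [blk, Finset.mem_Ico] at hi
          have : s J ≤ s j := hmono (by omega)
          exact (high_window (show L ≤ i by omega) (Finset.mem_range.1 hy)).2
        unfold OKb
        rw [hzero]
        have := hCD j
        omega
  have hcard := Finset.card_le_card hsub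
  have hc2 := hcard.trans (Finset.card_union_le _ _)
  have hc3 := Finset.card_union_le
    ((range L).biUnion (fun i => (range (N L)).filter (fun y : ℕ => ¬ Good i ((y : ℤ) - T L))))
    ((range J).biUnion
        (fun j => (range (N L)).filter (fun y : ℕ => ¬ OKb D C s j ((y : ℤ) - T L))))
  have hc4 : (((range L).biUnion
      (fun i => (range (N L)).filter (fun y : ℕ => ¬ Good i ((y : ℤ) - T L)))).card : ℝ)
      ≤ N L / 4 := by
    have a1 : (((range L).biUnion
      (fun i => (range (N L)).filter (fun y : ℕ => ¬ Good i ((y : ℤ) - T L)))).card : ℝ) ≤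
      ∑ i ∈ range L, (N L : ℝ) * ((1 / 2) ^ i * (1 / 8)) := by
      refine le_trans (Nat.cast_le.2 Finset.card_biUnion_le) ?_
      rw [Nat.cast_sum]
      refine Finset.sum_le_sum fun i hi => ?_
      have b1 := bad1 (Finset.mem_range.1 hi)
      have b2 : ((((range (N L)).filter (fun y : ℕ => ¬ Good i ((y : ℤ) - T L))).card : ℝ)) *
          2 ^ (2 * i + 5) ≤ N L := by exact_mod_cast b1
      have b3 : (2 : ℝ) ^ (i + 3) ≤ 2 ^ (2 * i + 5) :=
        pow_le_pow_right₀ (by norm_num) (by omega)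
      have b4 : ((((range (N L)).filter (fun y : ℕ => ¬ Good i ((y : ℤ) - T L))).card : ℝ)) *
          2 ^ (i + 3) ≤ N L :=
        le_trans (mul_le_mul_of_nonneg_left b3 (by positivity)) b2
      have b5 : (N L : ℝ) * ((1 / 2) ^ i * (1 / 8)) = N L / 2 ^ (i + 3) := by
        rw [pow_add, one_div, inv_pow]; field_simp; norm_num
      rw [b5, le_div_iff₀ (by positivity)]
      exact b4
    refine a1.trans ?_
    rw [← Finset.mul_sum, ← Finset.sum_mul]
    have a2 : ∑ i ∈ range L, ((1 : ℝ) / 2) ^ i ≤ 2 := by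
      rw [geom_sum_eq (by norm_num)]
      have : (0 : ℝ) ≤ (1 / 2) ^ L := by positivity
      rw [div_le_iff_of_neg (by norm_num)]
      linarith
    have a3 : (0 : ℝ) ≤ N L := by positivity
    nlinarith
  have hc5 : (((range J).biUnion
      (fun j => (range (N L)).filter (fun y : ℕ => ¬ OKb D C s j ((y : ℤ) - T L)))).card : ℝ)
      ≤ N L / 4 := by
    have a1 : (((range J).biUnion
      (fun j => (range (N L)).filter (fun y : ℕ => ¬ OKb D C s j ((y : ℤ) - T L)))).card : ℝ) ≤
      ∑ i ∈ range J, (N L : ℝ) * ((1 / 2) ^ i * (1 / 8)) := by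
      refine le_trans (Nat.cast_le.2 Finset.card_biUnion_le) ?_
      rw [Nat.cast_sum]
      refine Finset.sum_le_sum fun i hi => ?_
      have b1 := bad2 (C := C) hs hD
        (show s (i + 1) ≤ L from hmono (by have := Finset.mem_range.1 hi; omega))
      have b4 : ((((range (N L)).filter (fun y : ℕ => ¬ OKb D C s i ((y : ℤ) - T L))).card : ℝ)) *
          2 ^ (i + 3) ≤ N L := by exact_mod_cast b1
      have b5 : (N L : ℝ) * ((1 / 2) ^ i * (1 / 8)) = N L / 2 ^ (i + 3) := by
        rw [pow_add, one_div, inv_pow]; field_simp; norm_num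
      rw [b5, le_div_iff₀ (by positivity)]
      exact b4
    refine a1.trans ?_
    rw [← Finset.mul_sum, ← Finset.sum_mul]
    have a2 : ∑ i ∈ range J, ((1 : ℝ) / 2) ^ i ≤ 2 := by
      rw [geom_sum_eq (by norm_num)]
      have : (0 : ℝ) ≤ (1 / 2) ^ J := by positivity
      rw [div_le_iff_of_neg (by norm_num)]
      linarith
    have a3 : (0 : ℝ) ≤ N L := by positivity
    nlinarith
  rw [Finset.card_range] at hc2
  have hc6 : (N L : ℝ) ≤
      ((range (N L)).filter (fun y : ℕ => ((y : ℤ) - T L) ∈ GG D C s)).card +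
      ((((range L).biUnion
      (fun i => (range (N L)).filter (fun y : ℕ => ¬ Good i ((y : ℤ) - T L)))).card : ℝ) +
      (((range J).biUnion
      (fun j => (range (N L)).filter (fun y : ℕ => ¬ OKb D C s j ((y : ℤ) - T L)))).card : ℝ)) := by
    exact_mod_cast hc2.trans (Nat.add_le_add_left hc3 _)
  linarith

end blocks2



/-- The Bohr set `B(α₁, …, α_k; η)`. -/
def bohr {k : ℕ} (α : Fin k → ℝ) (η : ℝ) : Set ℤ :=
  {x | ∀ j, ‖Complex.exp (2 * Real.pi * Complex.I * (α j) * x) - 1‖ < η}

/-- `X` contains a Bohr set (a Bohr neighbourhood of `0`). -/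
def ContainsBohr (X : Set ℤ) : Prop :=
  ∃ (k : ℕ) (α : Fin k → ℝ) (η : ℝ), 0 < η ∧ bohr α η ⊆ X

/-- `A` has upper Banach density `δ`: the limit over `n` of
`sup_M |A ∩ {M + 1, …, M + n}| / n` exists and is `δ`. -/
def HasUpperBanachDensity (A : Set ℤ) (δ : ℝ) : Prop :=
  Tendsto (fun n : ℕ => ⨆ M : ℤ, ((A ∩ Set.Ioc M (M + n)).ncard : ℝ) / n) atTop (𝓝 δ)

/-- `S` is `(𝒟, ℬ)`-expanding: `A - A + S` contains a Bohr set for every `A` of positive upper
Banach density. -/
def Expanding (S : Set ℤ) : Prop :=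
  ∀ A : Set ℤ, (∃ δ : ℝ, 0 < δ ∧ HasUpperBanachDensity A δ) →
    ContainsBohr {z | ∃ a ∈ A, ∃ a' ∈ A, ∃ s ∈ S, z = a - a' + s}

/-- The set of finite nonempty sums of the sequence `x`. -/
def FS (x : ℕ → ℕ) : Set ℤ :=
  {z | ∃ F : Finset ℕ, F.Nonempty ∧ z = ∑ n ∈ F, (x n : ℤ)}

lemma ncard_Ioc_le (A : Set ℤ) (M : ℤ) (n : ℕ) : (A ∩ Set.Ioc M (M + n)).ncard ≤ n := by
  have h1 : (A ∩ Set.Ioc M (M + n)).ncard ≤ (Set.Ioc M (M + n)).ncard :=
    Set.ncard_le_ncard Set.inter_subset_right (Set.finite_Ioc _ _)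
  refine h1.trans ?_
  rw [← Finset.coe_Ioc, Set.ncard_coe_finset, Int.card_Ioc]
  simp

lemma density_exists (A : Set ℤ)
    (h : ∃ᶠ n : ℕ in atTop, 0 < n ∧ ∃ M : ℤ, (n : ℝ) / 4 ≤ ((A ∩ Set.Ioc M (M + n)).ncard : ℝ)) :
    ∃ δ : ℝ, 0 < δ ∧ HasUpperBanachDensity A δ := by
  set U : ℕ → ℝ := fun n => ⨆ M : ℤ, ((A ∩ Set.Ioc M (M + n)).ncard : ℝ) with hU
  have hbdd : ∀ n : ℕ, BddAbove (Set.range fun M : ℤ => ((A ∩ Set.Ioc M (M + n)).ncard : ℝ)) := by
    intro n
    refine ⟨n, ?_⟩
    rintro _ ⟨M, rfl⟩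
    exact Nat.cast_le.2 (ncard_Ioc_le A M n)
  have hle : ∀ (n : ℕ) (M : ℤ), ((A ∩ Set.Ioc M (M + n)).ncard : ℝ) ≤ U n :=
    fun n M => le_ciSup (hbdd n) M
  have hnn : ∀ n, 0 ≤ U n := fun n => le_trans (by positivity) (hle n 0)
  have hsub : Subadditive U := by
    intro m n
    refine ciSup_le fun M => ?_
    have h1 : A ∩ Set.Ioc M (M + ((m + n : ℕ) : ℤ)) ⊆
        (A ∩ Set.Ioc M (M + m)) ∪ (A ∩ Set.Ioc (M + m) (M + m + n)) := by
      rintro x ⟨hx, hx1, hx2⟩
      push_cast at hx2
      rcases le_or_gt x (M + m) with h | h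
      · left; exact ⟨hx, hx1, h⟩
      · right; exact ⟨hx, h, by linarith⟩
    have h2 : (A ∩ Set.Ioc M (M + ((m + n : ℕ) : ℤ))).ncard ≤
        (A ∩ Set.Ioc M (M + m)).ncard + (A ∩ Set.Ioc (M + m) (M + m + n)).ncard := by
      refine (Set.ncard_le_ncard h1 ?_).trans (Set.ncard_union_le _ _)
      exact ((Set.finite_Ioc _ _).subset Set.inter_subset_right).union
        ((Set.finite_Ioc _ _).subset Set.inter_subset_right)
    have h3 : ((A ∩ Set.Ioc M (M + ((m + n : ℕ) : ℤ))).ncard : ℝ) ≤
        (A ∩ Set.Ioc M (M + m)).ncard + (A ∩ Set.Ioc (M + m) (M + m + n)).ncard := by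
      exact_mod_cast h2
    exact h3.trans (add_le_add (hle m M) (hle n (M + m)))
  have hbb : BddBelow (Set.range fun n => U n / n) := by
    refine ⟨0, ?_⟩
    rintro _ ⟨n, rfl⟩
    exact div_nonneg (hnn n) (by positivity)
  have hlim := hsub.tendsto_lim hbb
  refine ⟨hsub.lim, ?_, ?_⟩
  · have h4 : (1 : ℝ) / 4 ≤ hsub.lim := by
      refine ge_of_tendsto_of_frequently hlim ?_
      refine h.mono ?_
      rintro n ⟨hn, M, hM⟩
      have hn' : (0 : ℝ) < n := by exact_mod_cast hn
      rw [le_div_iff₀ hn']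
      linarith [hle n M]
    linarith
  · unfold HasUpperBanachDensity
    refine hlim.congr fun n => ?_
    simp only [hU, div_eq_mul_inv]
    rw [Real.iSup_mul_of_nonneg (by positivity)]

/-- Full disproof: the IP set generated by `2 ^ (n ^ 2)`, `n ≥ 1`, is not expanding. -/
theorem result : ¬ Expanding (FS (fun n => 2 ^ ((n + 1) ^ 2))) := by
  classical
  intro hexp
  -- constants
  choose C hC using fun j : ℕ => balance j (1 / ((j : ℝ) + 1)) (by positivity)
  set D : ℕ → ℕ := fun j => (C j + 1) ^ 2 * 4 ^ (j + 3) with hDdef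
  have hD : ∀ j, D j = (C j + 1) ^ 2 * 4 ^ (j + 3) := fun j => rfl
  set s : ℕ → ℕ := fun j => ∑ i ∈ range j, 2 * D i with hsdef
  have hs : ∀ j, s (j + 1) = s j + 2 * D j := fun j => by
    simp only [hsdef, Finset.sum_range_succ]
  have hCD : ∀ j, C j < D j := by
    intro j
    rw [hD]
    have : 1 ≤ 4 ^ (j + 3) := Nat.one_le_pow _ _ (by norm_num)
    nlinarith
  -- one of the two parities has positive upper Banach density
  have hfreq : ∃ par : ℕ, ∃ᶠ J : ℕ in atTop, (N (s J) : ℝ) / 4 ≤
      ((range (N (s J))).filter (fun y : ℕ => ((y : ℤ) - T (s J)) ∈ AA D C s par)).card := by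
    have hall : ∀ J : ℕ, ((N (s J) : ℝ) / 4 ≤
        ((range (N (s J))).filter (fun y : ℕ => ((y : ℤ) - T (s J)) ∈ AA D C s 0)).card) ∨
        ((N (s J) : ℝ) / 4 ≤
        ((range (N (s J))).filter (fun y : ℕ => ((y : ℤ) - T (s J)) ∈ AA D C s 1)).card) := by
      intro J
      have h1 := window_half (C := C) hs hD J
      have h2 : (range (N (s J))).filter (fun y : ℕ => ((y : ℤ) - T (s J)) ∈ GG D C s) ⊆
          ((range (N (s J))).filter (fun y : ℕ => ((y : ℤ) - T (s J)) ∈ AA D C s 0)) ∪
          ((range (N (s J))).filter (fun y : ℕ => ((y : ℤ) - T (s J)) ∈ AA D C s 1)) := by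
        intro y hy
        rw [Finset.mem_filter] at hy
        rw [Finset.mem_union, Finset.mem_filter, Finset.mem_filter]
        rcases Nat.mod_two_eq_zero_or_one
          ({j | Maj D s j ((y : ℤ) - T (s J))}.ncard) with h | h
        · left; exact ⟨hy.1, hy.2, h⟩
        · right; exact ⟨hy.1, hy.2, h⟩
      have h3 := (Finset.card_le_card h2).trans (Finset.card_union_le _ _)
      have h4 : ((((range (N (s J))).filter
          (fun y : ℕ => ((y : ℤ) - T (s J)) ∈ GG D C s)).card : ℕ) : ℝ) ≤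
          (((range (N (s J))).filter (fun y : ℕ => ((y : ℤ) - T (s J)) ∈ AA D C s 0)).card : ℝ) +
          (((range (N (s J))).filter (fun y : ℕ => ((y : ℤ) - T (s J)) ∈ AA D C s 1)).card : ℝ) := by
        have := (Nat.cast_le (α := ℝ)).2 h3
        rwa [Nat.cast_add] at this
      by_contra hcon
      push Not at hcon
      linarith [hcon.1, hcon.2]
    have := Filter.Eventually.of_forall (f := atTop) hall
    rcases (Filter.frequently_or_distrib.1 this.frequently) with h | h
    · exact ⟨0, h⟩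
    · exact ⟨1, h⟩
  obtain ⟨par, hpar⟩ := hfreq
  -- upper Banach density
  have hNinj : Tendsto (fun J => N (s J)) atTop atTop := by
    refine tendsto_atTop_mono (f := fun J => J) (fun J => ?_) tendsto_id
    have h1 := s_ge hs hCD J
    have h3 : s J < N (s J) := by
      unfold N
      calc s J < 2 ^ (s J) := Nat.lt_two_pow_self
        _ ≤ 2 ^ ((s J + 4) ^ 2) := Nat.pow_le_pow_right (by norm_num) (by nlinarith)
    omega
  have hdens := density_exists (AA D C s par) (by
    refine hNinj.frequently (p := fun n : ℕ => 0 < n ∧ ∃ M : ℤ, (n : ℝ) / 4 ≤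
      ((AA D C s par ∩ Set.Ioc M (M + n)).ncard : ℝ)) ?_
    refine hpar.mono fun J hJ => ?_
    refine ⟨N_pos _, -(T (s J) : ℤ) - 1, hJ.trans ?_⟩
    have hinj : Set.InjOn (fun y : ℕ => (y : ℤ) - T (s J))
      ((range (N (s J))).filter (fun y : ℕ => ((y : ℤ) - T (s J)) ∈ AA D C s par)) := by
      intro y _ y' _ hyy
      simpa using hyy
    rw [← Set.ncard_coe_finset, ← hinj.ncard_image]
    have hfin : (AA D C s par ∩ Set.Ioc (-(T (s J) : ℤ) - 1)
      (-(T (s J) : ℤ) - 1 + (N (s J) : ℤ))).Finite :=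
      (Set.finite_Ioc _ _).subset Set.inter_subset_right
    have := Set.ncard_le_ncard (s := (fun y : ℕ => (y : ℤ) - T (s J)) ''
      ((range (N (s J))).filter (fun y : ℕ => ((y : ℤ) - T (s J)) ∈ AA D C s par)))
      (t := AA D C s par ∩ Set.Ioc (-(T (s J) : ℤ) - 1)
      (-(T (s J) : ℤ) - 1 + (N (s J) : ℤ))) ?_ hfin
    · exact_mod_cast this
    · rintro _ ⟨y, hy, rfl⟩
      rw [Finset.mem_coe, Finset.mem_filter, Finset.mem_range] at hy
      refine ⟨hy.2, ?_, ?_⟩
      · have : (0 : ℤ) ≤ y := by positivity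
        linarith
      · have : (y : ℤ) + 1 ≤ N (s J) := by exact_mod_cast hy.1
        linarith)
  -- apply the expanding property
  obtain ⟨k, α, η, hη, hB⟩ := hexp _ hdens
  -- choose the block
  obtain ⟨j1, hj1⟩ := exists_nat_gt (2 * Real.pi / η)
  set j := max k j1 with hj
  have hkj : k ≤ j := le_max_left _ _
  have hj1j : (j1 : ℝ) ≤ j := by exact_mod_cast le_max_right k j1
  have hsmall : 2 * Real.pi * (1 / ((j : ℝ) + 1)) < η := by
    rw [mul_one_div, div_lt_iff₀ (by positivity)]
    rw [div_lt_iff₀ hη] at hj1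
    nlinarith
  obtain ⟨w, hw1, hw2, hw3⟩ := hC j (blk s j)
    (fun i l => if h : l.1 < k then α ⟨l.1, h⟩ * (hh i : ℝ) else 0)
  set r : ℤ := ∑ i ∈ blk s j, w i * (hh i : ℤ) with hr
  have hrB : r ∈ bohr α η := by
    intro l
    obtain ⟨z, hz⟩ := hw3 ⟨l.1, lt_of_lt_of_le l.2 hkj⟩
    simp only [l.2, dif_pos] at hz
    have h1 : ∑ i ∈ blk s j, (w i : ℝ) * (α ⟨l.1, l.2⟩ * (hh i : ℝ)) = α l * r := by
      rw [hr]
      push_cast
      rw [Finset.mul_sum]
      refine Finset.sum_congr rfl fun i _ => ?_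
      ring
    rw [h1] at hz
    have h2 : Complex.exp (2 * Real.pi * Complex.I * (α l) * r) =
        Complex.exp (Complex.I * ((2 * Real.pi * (α l * r - z) : ℝ) : ℂ)) := by
      have : (2 * Real.pi * Complex.I * (α l) * r : ℂ) =
          Complex.I * ((2 * Real.pi * (α l * r - z) : ℝ) : ℂ) + z * (2 * Real.pi * Complex.I) := by
        push_cast; ring
      rw [this, Complex.exp_add, Complex.exp_int_mul_two_pi_mul_I, mul_one]
    rw [h2]
    refine lt_of_le_of_lt (Real.norm_exp_I_mul_ofReal_sub_one_le (x := _)) ?_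
    rw [Real.norm_eq_abs, abs_mul, abs_of_pos (by positivity)]
    refine lt_trans ?_ hsmall
    exact mul_lt_mul_of_pos_left hz (by positivity)
  obtain ⟨a, ha, a', ha', t, ⟨F, -, hF⟩, hrt⟩ := hB hrB
  refine avoid (F := F) hs (fin_maj hs hCD) ha ha' hw1 hw2 ?_
  have hF' : t = ∑ n ∈ F, (xx n : ℤ) := by rw [hF]; rfl
  rw [← hr, ← hF', hrt]
  ring


end Pool.Agent.Results.MP_23b914_co.IPNotExpanding
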